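import Pool.Agent.H715Z.SisMain

/-!
# ZFC does not prove `sis(κ⁺, <κ⁺, 3)` for `κ^{<κ} = κ`

`CTM` (countable transitive model of ZFC) and `nat` are defined in
`Pool.Agent.Helper212.CohenE.Defs`, the other notions in `Pool.Agent.H715Z.SisDefs`.
-/

namespace Pool.Agent.Results.MP_c6cf52_lc.NotInZFC

open CohenE H715Z.Sis

/-- There is a countable transitive model `M` of ZFC with an infinite cardinal `κ = κ^{<κ}`, its
successor `l = κ⁺` and the ordinal `τ = κ + ω < l` such that, in `M`, `sis(l, τ, 2)` and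
`sis(l, τ, 3)` fail. -/
theorem result : ∃ M : Set ZFSet.{0}, CTM M ∧ ∃ κ l τ : ZFSet.{0},
    IsCard M κ ∧ ZFSet.omega ⊆ κ ∧ PowLt M κ ∧ IsSucc M κ l ∧ τ ∈ l ∧
    τ.rank = κ.rank + Ordinal.omega0 ∧ ¬ Sis M l τ (nat 2) ∧ ¬ Sis M l τ (nat 3) :=
  main

end Pool.Agent.Results.MP_c6cf52_lc.NotInZFC
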